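import Mathlib
import Pool.Agent.Q157.SS.Stm

/-!
# Project SS: the swap inequality
-/

set_option autoImplicit false

namespace Pool.Agent.Q182.SS

open Finset Equiv Pool.Agent.Q157.SS

variable {V : Type} [Fintype V] [DecidableEq V]

open Classical in
/-- The permutations equal to `θ` on `D` which avoid all pairs of `J`. -/
noncomputable def gd (D : Finset V) (θ : Perm V) (J : Finset (Finset V × Finset V)) :
    Finset (Perm V) :=
  univ.filter (fun g => (∀ v ∈ D, g v = θ v) ∧ ∀ j ∈ J, j.1.image g ≠ j.2)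

open Classical in
/-- Those which are equal to `φ` on `A`. -/
noncomputable def gA (D : Finset V) (θ : Perm V) (J : Finset (Finset V × Finset V))
    (A : Finset V) (φ : V → V) : Finset (Perm V) :=
  (gd D θ J).filter (fun g => ∀ x ∈ A, g x = φ x)

lemma mem_gd {D : Finset V} {θ : Perm V} {J : Finset (Finset V × Finset V)} {g : Perm V} :
    g ∈ gd D θ J ↔ (∀ v ∈ D, g v = θ v) ∧ ∀ j ∈ J, j.1.image g ≠ j.2 := by
  simp [gd]

lemma mem_gA {D : Finset V} {θ : Perm V} {J : Finset (Finset V × Finset V)} {A : Finset V}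
    {φ : V → V} {g : Perm V} :
    g ∈ gA D θ J A φ ↔ g ∈ gd D θ J ∧ ∀ x ∈ A, g x = φ x := by
  simp [gA]

omit [Fintype V] in
lemma image_swap_mul (x b : V) (g : Perm V) (s : Finset V) :
    s.image (swap x b * g) = (s.image g).image (swap x b) := by
  rw [image_image]; rfl

omit [Fintype V] in
lemma image_swap_self {x b : V} {s : Finset V} (hx : x ∉ s) (hb : b ∉ s) :
    s.image (swap x b) = s := by
  have h : ∀ y ∈ s, swap x b y = y := by
    intro y hy
    apply swap_apply_of_ne_of_ne
    · rintro rfl; exact hx hy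
    · rintro rfl; exact hb hy
  ext y
  rw [mem_image]
  constructor
  · rintro ⟨z, hz, rfl⟩
    rw [h z hz]; exact hz
  · intro hy
    exact ⟨y, hy, h y hy⟩

lemma step (D : Finset V) (θ : Perm V) (hθ : ∀ v ∈ D, θ v ∈ D)
    (J : Finset (Finset V × Finset V)) (A : Finset V) (φ : V → V) (a : V) (ha : a ∉ A)
    (hφ : φ a ∉ D) (h1 : ∀ j ∈ J, a ∉ j.1) (h2 : ∀ j ∈ J, φ a ∉ j.2) :
    (gA D θ J (insert a A) φ).card * (univ \ (D ∪ A.image φ)).card ≤ (gA D θ J A φ).card := by
  rw [← card_product]
  apply card_le_card_of_injOn (fun p => swap (φ a) p.2 * p.1)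
  · intro p hp
    rw [mem_coe, mem_product, mem_gA, mem_gd, mem_sdiff, mem_union, not_or] at hp
    obtain ⟨⟨⟨hD, hJ⟩, hA⟩, -, hb1, hb2⟩ := hp
    have hga : p.1 a = φ a := hA a (mem_insert_self _ _)
    rw [mem_coe, mem_gA, mem_gd]
    refine ⟨⟨?_, ?_⟩, ?_⟩
    · intro v hv
      rw [Perm.mul_apply, hD v hv]
      apply swap_apply_of_ne_of_ne
      · rintro h; exact hφ (h ▸ hθ v hv)
      · rintro h; exact hb1 (h ▸ hθ v hv)
    · intro j hj he
      rw [image_swap_mul] at he
      by_cases hb : p.2 ∈ j.2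
      · rw [← he, mem_image] at hb
        obtain ⟨y, hy, hyb⟩ := hb
        have hy2 : y = φ a := by
          have h3 : swap (φ a) p.2 (φ a) = p.2 := swap_apply_left _ _
          exact (swap (φ a) p.2).injective (hyb.trans h3.symm)
        rw [hy2, ← hga, mem_image] at hy
        obtain ⟨z, hz, hza⟩ := hy
        have : z = a := p.1.injective hza
        exact h1 j hj (this ▸ hz)
      · have h3 := image_swap_self (h2 j hj) hb
        apply hJ j hj
        have h4 : Function.Injective (fun s : Finset V => s.image (swap (φ a) p.2)) :=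
          Finset.image_injective (swap (φ a) p.2).injective
        apply h4
        simp only
        rw [he, h3]
    · intro x hx
      have hgx := hA x (mem_insert_of_mem hx)
      rw [Perm.mul_apply, hgx]
      apply swap_apply_of_ne_of_ne
      · intro h
        have : x = a := p.1.injective (by rw [hgx, hga, h])
        exact ha (this ▸ hx)
      · rintro h
        exact hb2 (h ▸ mem_image_of_mem _ hx)
  · intro p hp q hq h
    rw [mem_coe, mem_product, mem_gA] at hp hq
    have hp1 : p.1 a = φ a := hp.1.2 a (mem_insert_self _ _)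
    have hq1 : q.1 a = φ a := hq.1.2 a (mem_insert_self _ _)
    simp only at h
    have h3 : p.2 = q.2 := by
      have h4 := congrArg (fun g : Perm V => g a) h
      simp only [Perm.mul_apply, hp1, hq1, swap_apply_left] at h4
      exact h4
    rw [h3] at h
    have h5 := mul_left_cancel h
    exact Prod.ext h5 h3

lemma claim (D : Finset V) (θ : Perm V) (hθ : ∀ v ∈ D, θ v ∈ D)
    (hD : 2 * D.card + 4 ≤ Fintype.card V)
    (J : Finset (Finset V × Finset V)) (φ : V → V) (A : Finset V) (hA : A.card ≤ 3)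
    (h : ∀ a ∈ A, φ a ∉ D ∧ (∀ j ∈ J, a ∉ j.1) ∧ ∀ j ∈ J, φ a ∉ j.2) :
    ((gA D θ J A φ).card : ℝ) ≤ (2 / (Fintype.card V : ℝ)) ^ A.card * (gd D θ J).card := by
  induction A using Finset.induction_on with
  | empty =>
    simp only [card_empty, pow_zero, one_mul]
    exact_mod_cast card_le_card (filter_subset _ _)
  | insert a A ha ih =>
    rw [card_insert_of_notMem ha] at hA ⊢
    have ih' := ih (by omega) (fun x hx => h x (mem_insert_of_mem hx))
    obtain ⟨h1, h2, h3⟩ := h a (mem_insert_self _ _)
    have h4 := step D θ hθ J A φ a ha h1 h2 h3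
    have h5 : Fintype.card V ≤ 2 * (univ \ (D ∪ A.image φ)).card := by
      have h6 := Finset.le_card_sdiff (D ∪ A.image φ) (univ : Finset V)
      have h7 := card_union_le D (A.image φ)
      have h8 := card_image_le (s := A) (f := φ)
      rw [card_univ] at h6
      omega
    have hV : (0 : ℝ) < Fintype.card V := by
      have : 0 < Fintype.card V := by omega
      exact_mod_cast this
    have h6 : ((gA D θ J (insert a A) φ).card : ℝ) * (Fintype.card V / 2) ≤ (gA D θ J A φ).card := by
      calc ((gA D θ J (insert a A) φ).card : ℝ) * (Fintype.card V / 2)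
          ≤ (gA D θ J (insert a A) φ).card * ((univ \ (D ∪ A.image φ)).card : ℝ) := by
            apply mul_le_mul_of_nonneg_left _ (Nat.cast_nonneg _)
            have : (Fintype.card V : ℝ) ≤ 2 * ((univ \ (D ∪ A.image φ)).card : ℝ) := by
              exact_mod_cast h5
            linarith
        _ ≤ (gA D θ J A φ).card := by exact_mod_cast h4
    calc ((gA D θ J (insert a A) φ).card : ℝ)
        = (2 / Fintype.card V) * (((gA D θ J (insert a A) φ).card : ℝ) * (Fintype.card V / 2)) := by
          field_simp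
      _ ≤ (2 / Fintype.card V) * ((2 / (Fintype.card V : ℝ)) ^ A.card * (gd D θ J).card) := by
          apply mul_le_mul_of_nonneg_left (h6.trans ih') (by positivity)
      _ = (2 / (Fintype.card V : ℝ)) ^ (A.card + 1) * (gd D θ J).card := by ring

theorem ev : S_ev := by
  intro V _ _ D θ hθ hD f e hf J hJ
  classical
  have hcard1 : Nat.card {g : Perm V // (∀ v ∈ D, g v = θ v) ∧ ∀ j ∈ J, j.1.image g ≠ j.2} =
      (gd D θ J).card := by
    rw [Nat.card_eq_fintype_card, Fintype.card_subtype]
    simp [gd]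
  have hcard2 : Nat.card {g : Perm V // (∀ v ∈ D, g v = θ v) ∧ f.image g = e ∧
      ∀ j ∈ J, j.1.image g ≠ j.2} = ((gd D θ J).filter (fun g : Perm V => f.image g = e)).card := by
    rw [Nat.card_eq_fintype_card, Fintype.card_subtype]
    congr 1
    ext g
    simp only [mem_filter, mem_univ, true_and, mem_gd]
    tauto
  rw [hcard1, hcard2]
  rcases Finset.eq_empty_or_nonempty ((gd D θ J).filter (fun g : Perm V => f.image g = e)) with h0 | ⟨g0, hg0⟩
  · rw [h0]
    simp only [card_empty, Nat.cast_zero]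
    positivity
  rw [mem_filter] at hg0
  have he : e.card = 3 := by
    rw [← hg0.2, card_image_of_injective _ g0.injective, hf]
  -- the maps
  set Φ : Finset ((x : V) → x ∈ f \ D → V) := Finset.pi (f \ D) (fun _ => e \ D) with hΦ
  have hΦc : Φ.card ≤ 27 := by
    rw [hΦ, card_pi, prod_const]
    have h1 : (f \ D).card ≤ 3 := hf ▸ card_le_card sdiff_subset
    have h2 : (e \ D).card ≤ 3 := he ▸ card_le_card sdiff_subset
    calc (e \ D).card ^ (f \ D).card ≤ 3 ^ (f \ D).card := Nat.pow_le_pow_left h2 _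
      _ ≤ 3 ^ 3 := Nat.pow_le_pow_right (by norm_num) h1
      _ = 27 := by norm_num
  let ext : ((x : V) → x ∈ f \ D → V) → V → V := fun ψ x => if h : x ∈ f \ D then ψ x h else x
  have hsub : (gd D θ J).filter (fun g : Perm V => f.image g = e) ⊆
      Φ.biUnion (fun ψ => gA D θ J (f \ D) (ext ψ)) := by
    intro g hg
    rw [mem_filter] at hg
    obtain ⟨hg1, hg2⟩ := hg
    rw [mem_biUnion]
    refine ⟨fun x _ => g x, ?_, ?_⟩
    · rw [hΦ, mem_pi]
      intro x hx
      rw [mem_sdiff] at hx ⊢
      refine ⟨hg2 ▸ mem_image_of_mem _ hx.1, ?_⟩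
      intro hgx
      -- θ maps D onto D
      have hsurj : D.image θ = D := by
        apply eq_of_subset_of_card_le
        · intro y hy
          rw [mem_image] at hy
          obtain ⟨z, hz, rfl⟩ := hy
          exact hθ z hz
        · rw [card_image_of_injective _ θ.injective]
      rw [← hsurj, mem_image] at hgx
      obtain ⟨z, hz, hzx⟩ := hgx
      rw [← (mem_gd.mp hg1).1 z hz] at hzx
      have : z = x := g.injective hzx
      exact hx.2 (this ▸ hz)
    · rw [mem_gA]
      refine ⟨hg1, ?_⟩
      intro x hx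
      simp only [ext]
      rw [dif_pos hx]
  have hfD : (f \ D).card ≤ 3 := hf ▸ card_le_card sdiff_subset
  have hmain : ∀ ψ ∈ Φ, ((gA D θ J (f \ D) (ext ψ)).card : ℝ) ≤
      (2 / (Fintype.card V : ℝ)) ^ (f \ D).card * (gd D θ J).card := by
    intro ψ hψ
    apply claim D θ hθ hD J (ext ψ) (f \ D) hfD
    intro a ha
    rw [hΦ, mem_pi] at hψ
    have h1 := hψ a ha
    have h2 : ext ψ a = ψ a ha := by
      simp only [ext]
      rw [dif_pos ha]
    rw [h2]
    refine ⟨(mem_sdiff.mp h1).2, ?_, ?_⟩
    · intro j hj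
      exact Finset.disjoint_left.mp (hJ j hj).1 ha
    · intro j hj
      exact Finset.disjoint_left.mp (hJ j hj).2 h1
  calc (((gd D θ J).filter (fun g : Perm V => f.image g = e)).card : ℝ)
      ≤ ((Φ.biUnion (fun ψ => gA D θ J (f \ D) (ext ψ))).card : ℝ) := by
        exact_mod_cast card_le_card hsub
    _ ≤ ∑ ψ ∈ Φ, ((gA D θ J (f \ D) (ext ψ)).card : ℝ) := by
        exact_mod_cast card_biUnion_le
    _ ≤ ∑ ψ ∈ Φ, (2 / (Fintype.card V : ℝ)) ^ (f \ D).card * (gd D θ J).card :=
        sum_le_sum hmain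
    _ = Φ.card * ((2 / (Fintype.card V : ℝ)) ^ (f \ D).card * (gd D θ J).card) := by
        rw [sum_const, nsmul_eq_mul]
    _ ≤ 27 * ((2 / (Fintype.card V : ℝ)) ^ (f \ D).card * (gd D θ J).card) := by
        apply mul_le_mul_of_nonneg_right _ (by positivity)
        exact_mod_cast hΦc
    _ = 27 * (2 / (Fintype.card V : ℝ)) ^ (f \ D).card * (gd D θ J).card := by ring

end Pool.Agent.Q182.SS
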